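import Pool.Agent.W95.EQ.Stm

/-!
# EQM-LDCF: local degree at a classical point with finite image
-/

open Polynomial Topology Filter MeasureTheory
open scoped ENNReal

namespace Pool.Agent.W599.EQM.LDCF

open Pool.Agent.W95.BK Pool.Agent.W95.EQ

universe u

lemma exists_pos_le (s : Finset ℝ) (hs : ∀ x ∈ s, 0 < x) : ∃ r : ℝ, 0 < r ∧ ∀ x ∈ s, r ≤ x := by
  classical
  induction s using Finset.induction_on with
  | empty => exact ⟨1, one_pos, by simp⟩
  | insert a s ha ih =>
    obtain ⟨r, hr, h⟩ := ih (fun x hx => hs x (Finset.mem_insert_of_mem hx))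
    refine ⟨min r a, lt_min hr (hs a (Finset.mem_insert_self _ _)), ?_⟩
    intro x hx
    rcases Finset.mem_insert.1 hx with rfl | hx
    · exact min_le_right _ _
    · exact (min_le_left _ _).trans (h x hx)

section
variable {K : Type u} [NontriviallyNormedField K] [IsUltrametricDist K] [IsAlgClosed K]

lemma sub_ne_zero' (f : RMap K) (c : K) : f.P - C c * f.Q ≠ 0 := by
  intro h
  have hP : f.P = C c * f.Q := sub_eq_zero.1 h
  have hu : IsUnit f.Q := by
    have := f.cop
    rw [hP] at this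
    have h2 : IsCoprime f.Q f.Q := (IsCoprime.mul_left_iff.1 this).2
    exact isCoprime_self.1 h2
  have hQ : f.Q.natDegree = 0 := natDegree_eq_zero_of_isUnit hu
  have hP' : f.P.natDegree = 0 := by
    have : f.P.natDegree ≤ f.Q.natDegree := by
      rw [hP]; exact natDegree_C_mul_le _ _
    omega
  have := f.deg_eq
  have := f.pos
  rw [hP', hQ] at *
  simp at *
  omega

lemma cnt_ball (hG : S_GLAM.{u}) (f : RMap K) (w : K) (r : ℝ) (b : K) :
    cnt f (ball w r) b = nIn (f.P - C b * f.Q) {z | ‖z - w‖ < r} := by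
  classical
  unfold cnt fib nIn
  rw [Multiset.filter_add, Multiset.card_add]
  have h1 : Multiset.filter (fun x => x ∈ ball w r)
      (Multiset.replicate (f.d - (f.P - C b * f.Q).natDegree) (OnePoint.infty : P1B K)) = 0 := by
    rw [Multiset.filter_eq_nil]
    intro a ha
    rw [Multiset.eq_of_mem_replicate ha]
    rintro ⟨y, hy, _⟩
    exact OnePoint.infty_ne_coe y hy
  have h2 : Multiset.filter (fun x => x ∈ ball w r)
      ((f.P - C b * f.Q).roots.map (fun w => ((cl w : BA K) : P1B K))) =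
      ((f.P - C b * f.Q).roots.filter (fun z => z ∈ {z | ‖z - w‖ < r})).map
        (fun w => ((cl w : BA K) : P1B K)) := by
    rw [Multiset.filter_map]
    congr 1
    refine Multiset.filter_congr ?_
    intro z _
    simp only [Function.comp, ball, Set.mem_setOf_eq]
    constructor
    · rintro ⟨y, hy, hl⟩
      have : cl z = y := OnePoint.coe_injective hy
      rw [← this, (hG K z w).1] at hl
      exact hl
    · intro hz
      exact ⟨cl z, rfl, by rw [(hG K z w).1]; exact hz⟩
  convert congrArg₂ (· + ·) (congrArg Multiset.card h2) (congrArg Multiset.card h1) using 1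
  simp

lemma count_stable (hN : S_NPOL.{u}) (h Q : K[X]) (w e : K) (r : ℝ) (hr : 0 < r) (hh : h ≠ 0)
    (hQ : Q ≠ 0) (he : ‖e‖ * gn w r Q < gn w r h) :
    nIn (h - C e * Q) {z | ‖z - w‖ < r} = nIn h {z | ‖z - w‖ < r} := by
  obtain ⟨hp, hle, heq, hlt, -, -⟩ := hN K h w r hh hr
  obtain ⟨hQp, hQle, -, -, -, -⟩ := hN K Q w r hQ hr
  set m := nIn h {z | ‖z - w‖ < r} with hm
  have hco : ∀ i, (taylor w (h - C e * Q)).coeff i =
      (taylor w h).coeff i - e * (taylor w Q).coeff i := by
    intro i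
    rw [map_sub, taylor_mul, taylor_C, coeff_sub, coeff_C_mul]
  have hsm : ∀ i, ‖e * (taylor w Q).coeff i‖ * r ^ i < gn w r h := by
    intro i
    rw [norm_mul, mul_assoc]
    exact lt_of_le_of_lt (mul_le_mul_of_nonneg_left (hQle i) (norm_nonneg _)) he
  have hri : ∀ i, 0 < r ^ i := fun i => pow_pos hr i
  have hgm : ‖(taylor w (h - C e * Q)).coeff m‖ * r ^ m = gn w r h := by
    rw [hco, ← heq]
    have h1 : ‖e * (taylor w Q).coeff m‖ < ‖(taylor w h).coeff m‖ := by
      have := hsm m
      rw [← heq] at this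
      exact lt_of_mul_lt_mul_right this (hri m).le
    congr 1
    rw [sub_eq_add_neg]
    have h1' : ‖-(e * (taylor w Q).coeff m)‖ < ‖(taylor w h).coeff m‖ := by rwa [norm_neg]
    rw [IsUltrametricDist.norm_add_eq_max_of_norm_ne_norm h1'.ne', max_eq_left h1'.le]
  have hgle : ∀ i, ‖(taylor w (h - C e * Q)).coeff i‖ * r ^ i ≤
      max (‖(taylor w h).coeff i‖ * r ^ i) (‖e * (taylor w Q).coeff i‖ * r ^ i) := by
    intro i
    rw [hco, ← max_mul_of_nonneg _ _ (hri i).le]
    refine mul_le_mul_of_nonneg_right ?_ (hri i).le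
    rw [sub_eq_add_neg]
    refine (IsUltrametricDist.norm_add_le_max _ _).trans ?_
    rw [norm_neg]
  have hg0 : h - C e * Q ≠ 0 := by
    intro h0
    rw [h0] at hgm
    simp at hgm
    linarith
  obtain ⟨gp, gle, geq, glt, -, -⟩ := hN K (h - C e * Q) w r hg0 hr
  set k := nIn (h - C e * Q) {z | ‖z - w‖ < r} with hk
  have e1 : gn w r (h - C e * Q) ≤ gn w r h := by
    rw [← geq]
    exact (hgle k).trans (max_le (hle k) (hsm k).le)
  have e2 : gn w r h ≤ gn w r (h - C e * Q) := by
    rw [← hgm]; exact gle m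
  have e3 : gn w r (h - C e * Q) = gn w r h := le_antisymm e1 e2
  rcases lt_trichotomy k m with hkm | hkm | hkm
  · exfalso
    have a1 := hlt k hkm
    have a2 := hgle k
    rw [geq, e3] at a2
    exact absurd a2 (not_le.2 (max_lt a1 (hsm k)))
  · exact hkm
  · exfalso
    have a1 := glt m hkm
    rw [hgm, e3] at a1
    exact lt_irrefl _ a1

end

theorem main : S_NPOL.{u} → S_NB.{u} → S_ISO.{u} → S_GLAM.{u} → S_ACT.{u} → S_LDCF.{u} := by
  intro hN hNB hI hG hA K _ _ _ f w hw U₀ hU₀
  classical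
  set c : K := f.P.eval w / f.Q.eval w with hc
  set h : K[X] := f.P - C c * f.Q with hh
  have h0 : h ≠ 0 := sub_ne_zero' f c
  have hQ0 : f.Q ≠ 0 := by
    intro hz; rw [hz] at hw; simp at hw
  have hact : f.act ((cl w : BA K) : P1B K) = ((cl c : BA K) : P1B K) := (hA K f).2.1 w hw
  obtain ⟨A, B, hAA, hBB, hAB⟩ := (hNB K).1 (cl w) U₀ hU₀
  -- choice of the radius
  obtain ⟨r, hr, hrle⟩ := exists_pos_le
    ((A.image (fun p => p.2)) ∪ (B.image (fun p => ‖p.1 - w‖)) ∪
      ((h.roots.toFinset.filter (fun z => z ≠ w)).image (fun z => ‖z - w‖))) (by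
    intro x hx
    simp only [Finset.mem_union, Finset.mem_image, Finset.mem_filter] at hx
    rcases hx with (⟨p, hp, rfl⟩ | ⟨p, hp, rfl⟩) | ⟨z, ⟨-, hz⟩, rfl⟩
    · have := hAA p hp
      rw [(hG K w p.1).1] at this
      exact lt_of_le_of_lt (norm_nonneg _) this
    · have := hBB p hp
      rw [(hG K w p.1).1] at this
      rw [norm_sub_rev]
      exact lt_of_le_of_lt this.1 this.2
    · exact norm_pos_iff.2 (sub_ne_zero.2 hz))
  have hrA : ∀ p ∈ A, r ≤ p.2 := fun p hp => hrle _ (by
    simp only [Finset.mem_union, Finset.mem_image]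
    exact Or.inl (Or.inl ⟨p, hp, rfl⟩))
  have hrB : ∀ p ∈ B, r ≤ ‖p.1 - w‖ := fun p hp => hrle _ (by
    simp only [Finset.mem_union, Finset.mem_image]
    exact Or.inl (Or.inr ⟨p, hp, rfl⟩))
  have hrR : ∀ z, h.IsRoot z → z ≠ w → r ≤ ‖z - w‖ := fun z hz hzw => hrle _ (by
    simp only [Finset.mem_union, Finset.mem_image, Finset.mem_filter, Multiset.mem_toFinset]
    exact Or.inr ⟨z, ⟨(mem_roots h0).2 hz, hzw⟩, rfl⟩)
  refine ⟨ball w r, ?_, ?_, ?_⟩
  · refine ((hNB K).2.2.1 w r).mem_nhds ⟨cl w, rfl, ?_⟩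
    rw [(hG K w w).1]
    simpa using hr
  · rintro x ⟨y, rfl, hy⟩
    refine hAB y ?_ ?_
    · intro p hp
      have h1 := (hI K y p.1 w).1
      have h2 := hAA p hp
      rw [(hG K w p.1).1, norm_sub_rev] at h2
      exact lt_of_le_of_lt h1 (max_lt (lt_of_lt_of_le hy (hrA p hp)) h2)
    · intro p hp
      have h1 := (hI K y p.1 w).2.2.1 (lt_of_lt_of_le hy (hrB p hp))
      have h2 := (hBB p hp).2
      rw [(hG K w p.1).1, norm_sub_rev] at h2
      rw [h1]
      exact h2
  · rw [hact]
    obtain ⟨hp, -, -, -, -, -⟩ := hN K h w r h0 hr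
    obtain ⟨hQp, -, -, -, -, -⟩ := hN K f.Q w r hQ0 hr
    have hε : 0 < gn w r h / gn w r f.Q := div_pos hp hQp
    have hev : ∀ᶠ b in toward ((cl c : BA K) : P1B K), ‖b - c‖ < gn w r h / gn w r f.Q := by
      unfold toward
      refine ⟨ball c (gn w r h / gn w r f.Q), ((hNB K).2.2.1 c _).mem_nhds ⟨cl c, rfl, ?_⟩, ?_⟩
      · rw [(hG K c c).1]; simpa using hε
      · rintro b ⟨y, hy, hl⟩
        have : cl b = y := OnePoint.coe_injective hy
        rw [← this, (hG K b c).1] at hl
        exact hl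
    filter_upwards [hev] with b hb
    rw [cnt_ball hG]
    have e1 : f.P - C b * f.Q = h - C (b - c) * f.Q := by
      rw [hh, C_sub]; ring
    rw [e1, count_stable hN h f.Q w (b - c) r hr h0 hQ0 (by rwa [lt_div_iff₀ hQp] at hb)]
    unfold nIn
    rw [← count_roots, Multiset.count_eq_card_filter_eq]
    congr 1
    refine Multiset.filter_congr ?_
    intro z hz
    simp only [Set.mem_setOf_eq]
    constructor
    · intro hzr
      by_contra hne
      have := hrR z ((mem_roots h0).1 hz) (fun h => hne h.symm)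
      linarith
    · rintro rfl
      simpa using hr

end Pool.Agent.W599.EQM.LDCF
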